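import Pool.Agent.H207.TP.Stm3

/-!
# Project TP, task CKR: infinitesimal conjugations keep critical points and orbits
-/

set_option autoImplicit false

open Polynomial

namespace Pool.Agent.H337.TP207

open Pool.Agent.H207.TP

theorem t_CKR : Pool.Agent.H207.TP.S_CKR := by
  intro T α β c hc
  constructor
  · unfold eqP conjP
    simp only [hasseDeriv_zero', zero_add, hasseDeriv_one', derivative_sub, derivative_add,
      derivative_mul, derivative_C, derivative_X, eval_sub, eval_add, eval_mul, eval_C, eval_X,
      Nat.cast_zero, zero_mul, one_mul, hc, mul_zero, mul_one]
    ring
  · intro n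
    induction n with
    | zero => simp only [spdP, Function.iterate_zero, id]
    | succ n ih =>
      rw [spdP, ih, Function.iterate_succ_apply']
      unfold conjP ev
      simp only [eval_sub, eval_add, eval_mul, eval_C, eval_X]
      ring

end Pool.Agent.H337.TP207
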